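import Pool.Agent.H605Z.Pol.Defs

set_option autoImplicit false

/-!
# Chang's conjecture and the transformation property
-/

namespace Pool.Agent.H605Z.TP

open Cardinal FirstOrder ZFSet Pool.Agent.Helper669.Forcing Pool.Agent.Helper980.G

/-- Chang's conjecture `(|S|, |K|) ↠ (|W|, ℵ₀)`: countably many functions from the finite subsets
of `S` to `K` have countably many values on the finite subsets of some `B ⊆ S` with
`|W| ≤ |B|`. -/
def Chang (K S W : Type) : Prop :=
  ∀ F : Finset S × ℕ → K, ∃ B : Set S, #W ≤ #B ∧ ∃ t : ℕ → K, ∀ a : Finset S × ℕ,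
    (∀ s ∈ a.1, s ∈ B) → ∃ n, t n = F a

/-- The same sentence in the forcing language of `P`. -/
def ChangF (P : Type) [Preorder P] (K S W : Type) : Set P :=
  fall fun F : Finset S × ℕ → K → Set P => fimp (IsFun F) (fex fun B : S → Set P =>
    fand (AtLeast W B) (fex fun t : ℕ → K → Set P => fand (IsFun t)
      (fall fun a : Finset S × ℕ => fall fun y =>
        fimp (fand (fall fun s => fall fun _ : s ∈ a.1 => meets (B s)) (meets (F a y)))
          (fex fun n => meets (t n y)))))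

/-- `H(θ)`: the sets contained in a transitive set of size less than `θ`. -/
def H (θ : Cardinal.{0}) : Type 1 :=
  {x : ZFSet.{0} // ∃ T : ZFSet.{0}, T.IsTransitive ∧ x ⊆ T ∧ T.card < θ}

/-- The language with two binary relation symbols. -/
def Lang : FirstOrder.Language.{0, 0} := ⟨fun _ => Empty, fun n => {_b : Bool // n = 2}⟩

/-- The structure `(H(θ), ∈, w)`. -/
@[reducible] def str (θ : Cardinal.{0}) (w : H θ → H θ → Prop) : Lang.Structure (H θ) where
  funMap f := f.elim
  RelMap r v := if r.1 = true then (v (Fin.cast r.2.symm 0)).1 ∈ (v (Fin.cast r.2.symm 1)).1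
    else w (v (Fin.cast r.2.symm 0)) (v (Fin.cast r.2.symm 1))

/-- `M` is a countable elementary submodel of `(H(θ), ∈, w)`. -/
def Sub (θ : Cardinal.{0}) (w : H θ → H θ → Prop) (M : Set ZFSet.{0}) : Prop :=
  M.Countable ∧ ∃ S : @FirstOrder.Language.ElementarySubstructure Lang (H θ) (str θ w),
    ∀ x, x ∈ M ↔ ∃ y ∈ S, y.1 = x

/-- `P`-names. -/
inductive IsName (P : ZFSet.{0}) : ZFSet.{0} → Prop
  | mk (a : ZFSet.{0}) (h : ∀ x ∈ a, ∃ b, ∃ p ∈ P, x = pair b p)
      (h' : ∀ b p, pair b p ∈ a → IsName P b) : IsName P a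

/-- The canonical names of the natural numbers (`one` is the largest condition). -/
def chk (one : ZFSet.{0}) : ℕ → ZFSet.{0}
  | 0 => ∅
  | k + 1 => insert (pair (chk one k) one) (chk one k)

variable (P le one : ZFSet.{0})

/-- `h` is an automorphism of the order `(P, le)` and `act` is its action on names. -/
def Aut (h act : ZFSet.{0} → ZFSet.{0}) : Prop :=
  Set.BijOn h P P ∧ (∀ p ∈ P, ∀ q ∈ P, pair p q ∈ le ↔ pair (h p) (h q) ∈ le) ∧
    ∀ a, IsName P a → ∀ y, y ∈ act a ↔ ∃ b p, pair b p ∈ a ∧ y = pair (act b) (h p)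

/-- The conditions below some `p` with `(ǩ, p) ∈ a` are dense below `q`. -/
def Frc (a : ZFSet.{0}) (k : ℕ) (q : ZFSet.{0}) : Prop :=
  ∀ r ∈ P, pair r q ∈ le → ∃ s ∈ P, pair s r ∈ le ∧ ∃ p, pair (chk one k) p ∈ a ∧ pair s p ∈ le

/-- A weak form of `a = b`: for sets of pairs `(ǩ, p)` it says that `a = b` is forced. -/
def Same (a b : ZFSet.{0}) : Prop := ∀ k, ∀ q ∈ P, Frc P le one a k q ↔ Frc P le one b k q

/-- The transformation property, weakened: only names which are sets of pairs `(ǩ, p)` are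
considered, `h(aᵢ)` only has to be the `Same` as a member of `Mₙ`, and `h(aₙ)` the `Same` as
`aₙ`; and it is required only for some choice of the well-orderings. -/
def TransP : Prop :=
  ∃ w : ∀ θ, H θ → H θ → Prop, (∀ θ, IsWellOrder (H θ) (w θ)) ∧ ∃ θ₀, ∀ θ ≥ θ₀, θ.IsRegular →
    ∀ (n : ℕ) (M : Fin (n + 1) → Set ZFSet.{0}) (a : Fin (n + 1) → ZFSet.{0}),
      (∀ i, Sub θ (w θ) (M i) ∧ pair P le ∈ M i ∧ a i ∈ M i ∧
        ∀ x ∈ a i, ∃ k, ∃ p ∈ P, x = pair (chk one k) p) →
      (∀ i j, i ≤ j → ∀ α < Ordinal.omega 1, α.toZFSet ∈ M i → α.toZFSet ∈ M j) →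
      ∃ h act, Aut P le h act ∧ (∀ i, ∃ b ∈ M (Fin.last n), Same P le one (act (a i)) b) ∧
        Same P le one (act (a (Fin.last n))) (a (Fin.last n))

/-- `(P, le)`, with largest element `one`, is a copy of the order of the nonzero elements of the
quotient of the Baire subsets of `2 ^ K` by the ideal `I`. -/
def Codes {K : Type} (I : Set (K → Bool) → Prop) : Prop :=
  ∃ c : {A : Set (K → Bool) //
      @MeasurableSet _ (MeasurableSpace.generateFrom {U | IsClopen U}) A ∧ ¬ I A} → ZFSet.{0},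
    (∀ p, p ∈ P ↔ ∃ A, c A = p) ∧ (∀ A B, c A = c B ↔ I (A.1 \ B.1) ∧ I (B.1 \ A.1)) ∧
    (∀ x, x ∈ le ↔ ∃ A B, x = pair (c A) (c B) ∧ I (A.1 \ B.1)) ∧
    ∃ A, A.1 = Set.univ ∧ c A = one

/-- The null ideal of the product measure on `2 ^ K`. -/
def Null (K : Type) (A : Set (K → Bool)) : Prop :=
  MeasureTheory.Measure.infinitePi (fun _ : K => (PMF.uniformOfFintype Bool).toMeasure) A = 0

end Pool.Agent.H605Z.TP
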