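import Pool.Agent.H605Z.TP.Defs

set_option autoImplicit false

/-!
# Chang's conjecture destroys the transformation property
-/

namespace Pool.Agent.H605Z.TP

open Cardinal ZFSet

theorem mem_chk (one : ZFSet.{0}) (k : ℕ) (y : ZFSet.{0}) :
    y ∈ chk one k ↔ ∃ j < k, y = pair (chk one j) one := by
  induction k with
  | zero => simp [chk]
  | succ k ih =>
    rw [chk, mem_insert_iff, ih]
    constructor
    · rintro (h | ⟨j, hj, h⟩)
      · exact ⟨k, Nat.lt_succ_self k, h⟩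
      · exact ⟨j, Nat.lt_succ_of_lt hj, h⟩
    · rintro ⟨j, hj, h⟩
      rcases Nat.lt_succ_iff_lt_or_eq.1 hj with h1 | h1
      · exact Or.inr ⟨j, h1, h⟩
      · exact Or.inl (h1 ▸ h)

theorem chk_inj (one : ZFSet.{0}) : Function.Injective (chk one) := by
  have h : StrictMono fun k => (chk one k).rank := by
    intro j k hjk
    have h1 : pair (chk one j) one ∈ chk one k := (mem_chk one k _).2 ⟨j, hjk, rfl⟩
    have h2 : ({chk one j} : ZFSet) ∈ pair (chk one j) one := by simp [pair]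
    have h3 : chk one j ∈ ({chk one j} : ZFSet) := by simp
    exact (rank_lt_of_mem h3).trans ((rank_lt_of_mem h2).trans (rank_lt_of_mem h1))
  intro j k hjk
  exact h.injective (by simp only [hjk])

theorem isName_chk {P one : ZFSet.{0}} (h : one ∈ P) (k : ℕ) : IsName P (chk one k) := by
  induction k using Nat.strong_induction_on with
  | _ k ih =>
    refine IsName.mk _ (fun x hx => ?_) (fun b p hb => ?_)
    · obtain ⟨j, _, rfl⟩ := (mem_chk one k x).1 hx
      exact ⟨_, one, h, rfl⟩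
    · obtain ⟨j, hj, h1⟩ := (mem_chk one k _).1 hb
      rw [(pair_inj.1 h1).1]
      exact ih j hj

theorem act_chk {P le one : ZFSet.{0}} (h1 : one ∈ P) {h act : ZFSet.{0} → ZFSet.{0}}
    (hA : Aut P le h act) (h2 : h one = one) (k : ℕ) : act (chk one k) = chk one k := by
  induction k using Nat.strong_induction_on with
  | _ k ih =>
    ext y
    rw [hA.2.2 _ (isName_chk h1 k), mem_chk]
    constructor
    · rintro ⟨b, p, hb, rfl⟩
      obtain ⟨j, hj, h3⟩ := (mem_chk one k _).1 hb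
      obtain ⟨rfl, rfl⟩ := pair_inj.1 h3
      exact ⟨j, hj, by rw [ih j hj, h2]⟩
    · rintro ⟨j, hj, rfl⟩
      exact ⟨_, _, (mem_chk one k _).2 ⟨j, hj, rfl⟩, by rw [ih j hj, h2]⟩

/-- the name attached to a sequence of conditions -/
noncomputable def nm (one : ZFSet.{0}) (v : ℕ → ZFSet.{0}) : ZFSet.{0} :=
  ZFSet.range fun k => pair (chk one k) (v k)

theorem mem_nm {one : ZFSet.{0}} {v : ℕ → ZFSet.{0}} {y : ZFSet.{0}} :
    y ∈ nm one v ↔ ∃ k, pair (chk one k) (v k) = y := mem_range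

theorem act_nm {P le one : ZFSet.{0}} (h1 : one ∈ P) {h act : ZFSet.{0} → ZFSet.{0}}
    (hA : Aut P le h act) (h2 : h one = one) {v : ℕ → ZFSet.{0}} (hv : ∀ k, v k ∈ P) :
    act (nm one v) = nm one fun k => h (v k) := by
  have hn : IsName P (nm one v) := by
    refine IsName.mk _ (fun x hx => ?_) (fun b p hb => ?_)
    · obtain ⟨k, rfl⟩ := mem_nm.1 hx
      exact ⟨_, _, hv k, rfl⟩
    · obtain ⟨k, h3⟩ := mem_nm.1 hb
      rw [← (pair_inj.1 h3).1]
      exact isName_chk h1 k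
  ext y
  rw [hA.2.2 _ hn, mem_nm]
  constructor
  · rintro ⟨b, p, hb, rfl⟩
    obtain ⟨k, h3⟩ := mem_nm.1 hb
    obtain ⟨rfl, rfl⟩ := pair_inj.1 h3
    exact ⟨k, by rw [act_chk h1 hA h2]⟩
  · rintro ⟨k, rfl⟩
    exact ⟨_, _, mem_nm.2 ⟨k, rfl⟩, by rw [act_chk h1 hA h2]⟩

/-- conditions below `p` are dense below `q` -/
def Dn (P le p q : ZFSet.{0}) : Prop :=
  ∀ r ∈ P, pair r q ∈ le → ∃ s ∈ P, pair s r ∈ le ∧ pair s p ∈ le

theorem frc_nm (P le one : ZFSet.{0}) (v : ℕ → ZFSet.{0}) (k : ℕ) (q : ZFSet.{0}) :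
    Frc P le one (nm one v) k q ↔ Dn P le (v k) q := by
  refine forall₃_congr fun r _ _ => exists_congr fun s => and_congr_right fun _ =>
    and_congr_right fun _ => ?_
  constructor
  · rintro ⟨p, hp, h⟩
    obtain ⟨j, h3⟩ := mem_nm.1 hp
    obtain ⟨h4, rfl⟩ := pair_inj.1 h3
    rwa [chk_inj one h4] at h
  · exact fun h => ⟨_, mem_nm.2 ⟨k, rfl⟩, h⟩

theorem exists_sub {θ : Cardinal.{0}} (w : H θ → H θ → Prop) [Infinite (H θ)]
    (s : Set (H θ)) (hs : s.Countable) :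
    ∃ M, Sub θ w M ∧ ∀ y ∈ s, y.1 ∈ M := by
  let := str θ w
  have hL : Countable Lang.Symbols := by
    unfold FirstOrder.Language.Symbols Lang
    infer_instance
  obtain ⟨S, h1, h2⟩ := Lang.exists_elementarySubstructure_card_eq s (ℵ₀ : Cardinal.{1}) le_rfl
    (by simpa using hs.le_aleph0)
    (by
      rw [lift_aleph0, lift_le_aleph0]
      exact mk_le_aleph0)
    (by simp)
  refine ⟨{x | ∃ y ∈ S, y.1 = x}, ⟨?_, S, fun x => Iff.rfl⟩, fun y hy => ⟨y, h1 hy, rfl⟩⟩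
  have h3 : (S : Set (H θ)).Countable := by
    rw [← le_aleph0_iff_set_countable]
    simpa using h2.le
  exact h3.image Subtype.val

theorem not_transP {K S : Type} {P le one : ZFSet.{0}} (u : K → ZFSet.{0}) (x : S → ℕ → K)
    (hx : Function.Injective x) (hK : ℵ₁ ≤ #K) (hC : Chang K S (ℵ₁ : Cardinal.{0}).out)
    (hu : ∀ ξ, u ξ ∈ P) (h1 : one ∈ P) (htop : ∀ p ∈ P, pair p one ∈ le)
    (hanti : ∀ p ∈ P, pair one p ∈ le → p = one) (hrefl : ∀ p ∈ P, pair p p ∈ le)
    (hsep : ∀ ξ η, ξ ≠ η → ∃ r ∈ P, pair r (u ξ) ∈ le ∧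
      ∀ s ∈ P, pair s r ∈ le → pair s (u η) ∉ le) : ¬ TransP P le one := by
  classical
  rintro ⟨w, -, θ₀, hT⟩
  obtain ⟨α, hα⟩ : BddAbove (Set.range fun z : ℕ → K => (nm one fun k => u (z k)).rank) :=
    Ordinal.bddAbove_of_small
  let γ : Ordinal.{0} := max α (max (pair P le).rank Ordinal.omega0)
  let θ : Cardinal.{0} := Order.succ (max θ₀ (max ℵ₀ (vonNeumann γ).card))
  have hθ : θ.IsRegular := isRegular_succ ((le_max_left _ _).trans (le_max_right _ _))
  have hH : ∀ y : ZFSet.{0}, y.rank ≤ γ → ∃ T : ZFSet.{0}, T.IsTransitive ∧ y ⊆ T ∧ T.card < θ :=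
    fun y hy => ⟨_, isTransitive_vonNeumann γ, subset_vonNeumann.2 hy,
      ((le_max_right _ _).trans (le_max_right _ _)).trans_lt (Order.lt_succ _)⟩
  have : Infinite (H θ) := by
    refine Infinite.of_injective (fun n : ℕ => (⟨(n : Ordinal.{0}).toZFSet, hH _ ?_⟩ : H θ)) ?_
    · rw [Ordinal.rank_toZFSet]
      exact (Ordinal.natCast_lt_omega0 n).le.trans ((le_max_right _ _).trans (le_max_right _ _))
    · intro n m h
      exact Nat.cast_injective (Ordinal.toZFSet_injective (congrArg Subtype.val h))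
  let pl : H θ := ⟨pair P le, hH _ ((le_max_left _ _).trans (le_max_right _ _))⟩
  let a : (ℕ → K) → H θ := fun z =>
    ⟨nm one fun k => u (z k), hH _ ((hα ⟨z, rfl⟩).trans (le_max_left _ _))⟩
  have hM : ∀ β : S, ∃ M, Sub θ (w θ) M ∧ ∀ y ∈ ({pl, a (x β)} : Set (H θ)), y.1 ∈ M :=
    fun β => exists_sub _ _ (Set.toFinite _).countable
  choose M hM1 hM2 using hM
  have ho : ∀ β : S, ∃ o : ℕ → Ordinal.{0},
      insert 0 {α | α < Ordinal.omega 1 ∧ α.toZFSet ∈ M β} = Set.range o := by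
    intro β
    refine Set.Countable.exists_eq_range (Set.Countable.insert _ ?_) ⟨0, Or.inl rfl⟩
    exact ((hM1 β).1.preimage Ordinal.toZFSet_injective).mono fun α h => h.2
  choose o ho using ho
  obtain ⟨g⟩ : Nonempty (Set.Iio (Ordinal.omega.{0} 1) ↪ K) := by
    rw [← lift_mk_le', Cardinal.mk_Iio_ordinal]
    simpa using hK
  have ho1 : ∀ β n, o β n < Ordinal.omega 1 := by
    intro β n
    have h2 : o β n ∈ insert 0 {α | α < Ordinal.omega 1 ∧ α.toZFSet ∈ M β} := by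
      rw [ho β]
      exact ⟨n, rfl⟩
    rcases h2 with h2 | h2
    · rw [h2]
      exact Ordinal.omega_pos 1
    · exact h2.1
  let G : S → ℕ → K := fun β n => if n % 2 = 0 then x β (n / 2) else g ⟨o β (n / 2), ho1 β _⟩
  obtain ⟨B, hB, t, ht⟩ := hC fun z => if h : z.1.Nonempty then G h.choose z.2
    else g ⟨0, Ordinal.omega_pos 1⟩
  have ht' : ∀ β ∈ B, ∀ n, ∃ m, t m = G β n := by
    intro β hβ n
    obtain ⟨m, hm⟩ := ht ({β}, n) (fun s hs => by rw [Finset.mem_singleton.1 hs]; exact hβ)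
    have h2 : ({β} : Finset S).Nonempty := Finset.singleton_nonempty β
    simp only [dif_pos h2] at hm
    rw [Finset.mem_singleton.1 h2.choose_spec] at hm
    exact ⟨m, hm⟩
  have hs : ({pl, a t} ∪ {y : H θ | ∃ α : Set.Iio (Ordinal.omega.{0} 1),
      g α ∈ Set.range t ∧ y.1 = α.1.toZFSet} : Set (H θ)).Countable := by
    refine (Set.toFinite _).countable.union ?_
    have h2 : ((fun α : Set.Iio (Ordinal.omega.{0} 1) => α.1.toZFSet) ''
        (g ⁻¹' Set.range t)).Countable :=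
      ((Set.countable_range t).preimage g.injective).image _
    refine (h2.preimage Subtype.val_injective).mono ?_
    rintro y ⟨α, h3, h4⟩
    exact ⟨α, h3, h4.symm⟩
  obtain ⟨N, hN1, hN2⟩ := exists_sub (w θ) _ hs
  have key : ∀ β : B, ∃ b : N, ∀ k, ∀ q ∈ P, Frc P le one b k q ↔ Dn P le (u (x β k)) q := by
    rintro ⟨β, hβ⟩
    obtain ⟨h, act, hA, h3, h4⟩ := hT θ ((le_max_left _ _).trans (Order.le_succ _)) hθ 1
      ![M β, N] ![(a (x β)).1, (a t).1]
      (by
        intro i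
        fin_cases i
        · refine ⟨hM1 β, hM2 β pl (Or.inl rfl), hM2 β _ (Or.inr rfl), fun y hy => ?_⟩
          obtain ⟨k, rfl⟩ := mem_nm.1 hy
          exact ⟨k, _, hu _, rfl⟩
        · refine ⟨hN1, hN2 pl (Or.inl (Or.inl rfl)), hN2 _ (Or.inl (Or.inr rfl)), fun y hy => ?_⟩
          obtain ⟨k, rfl⟩ := mem_nm.1 hy
          exact ⟨k, _, hu _, rfl⟩)
      (by
        intro i j hij α hα1 hα2
        fin_cases i <;> fin_cases j
        · exact hα2
        · have hα3 : α.toZFSet ∈ M β := hα2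
          obtain ⟨y, -, hy⟩ := ((hM1 β).2.choose_spec _).1 hα3
          have h2 : α ∈ Set.range (o β) := by
            rw [← ho β]
            exact Or.inr ⟨hα1, hα3⟩
          obtain ⟨n, rfl⟩ := h2
          obtain ⟨m, hm⟩ := ht' β hβ (2 * n + 1)
          have h5 : (2 * n + 1) % 2 ≠ 0 := by omega
          have h6 : (2 * n + 1) / 2 = n := by omega
          simp only [G, if_neg h5, h6] at hm
          have h7 := hN2 y (Or.inr ⟨⟨_, ho1 β n⟩, ⟨m, hm⟩, hy⟩)
          rw [hy] at h7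
          exact h7
        · exact absurd hij (by decide)
        · exact hα2)
    have h2 : h one = one := by
      obtain ⟨p, hp, hp'⟩ := hA.1.surjOn (show one ∈ (P : Set ZFSet) from h1)
      refine hanti _ (hA.1.mapsTo h1) ?_
      have h5 := (hA.2.1 p hp one h1).1 (htop p hp)
      rwa [hp'] at h5
    obtain ⟨b, hb, h5⟩ := h3 0
    refine ⟨⟨b, hb⟩, fun k q hq => ?_⟩
    have h6 : Same P le one (act (nm one fun k => u (x β k))) b := h5
    have h7 : Same P le one (act (nm one fun k => u (t k))) (nm one fun k => u (t k)) := h4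
    rw [act_nm h1 hA h2 fun k => hu _] at h6 h7
    obtain ⟨m, hm⟩ := ht' β hβ (2 * k)
    have h8 : (2 * k) % 2 = 0 := by omega
    have h9 : (2 * k) / 2 = k := by omega
    simp only [G, if_pos h8, h9] at hm
    have h10 := h7 m q hq
    rw [frc_nm, frc_nm, hm] at h10
    rw [← h10, ← frc_nm P le one (fun k => h (u (x β k)))]
    exact (h6 k q hq).symm
  choose b hb using key
  have hinj : Function.Injective b := by
    intro β β' h
    refine Subtype.ext (hx (funext fun k => ?_))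
    by_contra hne
    obtain ⟨r, hr, h2, h3⟩ := hsep _ _ hne
    have h4 : Dn P le (u (x β k)) (u (x β k)) := fun s hs h5 => ⟨s, hs, hrefl s hs, h5⟩
    have h5 := (hb β k _ (hu _)).2 h4
    rw [h] at h5
    obtain ⟨s, hs, h6, h7⟩ := (hb β' k _ (hu _)).1 h5 r hr h2
    exact h3 s hs h6 h7
  have : Countable N := hN1.1
  have h2 : Countable B := hinj.countable
  rw [Cardinal.mk_out] at hB
  exact absurd (hB.trans mk_le_aleph0) (not_le.2 aleph0_lt_aleph_one)

theorem not_transP_codes {κ : Cardinal.{0}} (h0 : ℵ₁ ≤ κ) (h1 : κ.ord.cof = ℵ₀)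
    (hC : Chang κ.out (Order.succ κ).out (ℵ₁ : Cardinal.{0}).out) (I : Set (κ.out → Bool) → Prop)
    (hI0 : I ∅) (hIm : ∀ A B, A ⊆ B → I B → I A) (hIu : ∀ A B, I A → I B → I (A ∪ B))
    (hIc : ∀ ξ η, ξ ≠ η → ¬ I ({z | z ξ = true} \ {z | z η = true}))
    {P le one : ZFSet.{0}} (h : Codes P le one I) : ¬ TransP P le one := by
  obtain ⟨c, hP, heq, hle, A₀, hA₀, rfl⟩ := h
  have hK : ℵ₁ ≤ #κ.out := by rwa [Cardinal.mk_out]
  have : Nontrivial κ.out := by
    rw [← one_lt_iff_nontrivial]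
    exact (one_lt_aleph0.trans aleph0_lt_aleph_one).trans_le hK
  obtain ⟨x⟩ : #(Order.succ κ).out ≤ #(ℕ → κ.out) := by
    rw [Cardinal.mk_out, ← power_def, Cardinal.mk_out, mk_nat, ← h1]
    exact Order.succ_le_of_lt (lt_power_cof_ord (aleph0_lt_aleph_one.le.trans h0))
  have hcl : ∀ ξ : κ.out, IsClopen {z : κ.out → Bool | z ξ = true} := fun ξ =>
    (isClopen_discrete {true}).preimage (continuous_apply ξ)
  have hnI : ∀ ξ : κ.out, ¬ I {z | z ξ = true} := fun ξ h => by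
    obtain ⟨η, hη⟩ := exists_ne ξ
    exact hIc ξ η hη.symm (hIm _ _ Set.sdiff_subset h)
  have hle' : ∀ A B, pair (c A) (c B) ∈ le ↔ I (A.1 \ B.1) := by
    intro A B
    rw [hle]
    refine ⟨?_, fun h => ⟨A, B, rfl, h⟩⟩
    rintro ⟨A', B', h2, h3⟩
    obtain ⟨h4, h5⟩ := pair_inj.1 h2
    refine hIm _ _ ?_ (hIu _ _ ((heq _ _).1 h4).1 (hIu _ _ h3 ((heq _ _).1 h5).2))
    intro z hz
    by_cases h6 : z ∈ A'.1
    · by_cases h7 : z ∈ B'.1
      · exact Or.inr (Or.inr ⟨h7, hz.2⟩)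
      · exact Or.inr (Or.inl ⟨h6, h7⟩)
    · exact Or.inl ⟨hz.1, h6⟩
  refine not_transP (fun ξ => c ⟨{z | z ξ = true},
    MeasurableSpace.measurableSet_generateFrom (hcl ξ), hnI ξ⟩) x x.injective hK hC
    (fun ξ => (hP _).2 ⟨_, rfl⟩) ((hP _).2 ⟨_, rfl⟩) ?_ ?_ ?_ ?_
  · intro p hp
    obtain ⟨A, rfl⟩ := (hP p).1 hp
    rw [hle', hA₀, Set.sdiff_univ]
    exact hI0
  · intro p hp h2
    obtain ⟨A, rfl⟩ := (hP p).1 hp
    refine (heq _ _).2 ⟨?_, (hle' _ _).1 h2⟩
    rw [hA₀, Set.sdiff_univ]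
    exact hI0
  · intro p hp
    obtain ⟨A, rfl⟩ := (hP p).1 hp
    rw [hle', Set.sdiff_self]
    exact hI0
  · intro ξ η hne
    refine ⟨c ⟨{z | z ξ = true} \ {z | z η = true},
      MeasurableSpace.measurableSet_generateFrom ((hcl ξ).diff (hcl η)), hIc ξ η hne⟩,
      (hP _).2 ⟨_, rfl⟩, ?_, fun s hs h2 h3 => ?_⟩
    · rw [hle']
      exact hIm _ _ (fun z hz => absurd hz.1.1 hz.2) hI0
    · obtain ⟨A, rfl⟩ := (hP s).1 hs
      rw [hle'] at h2 h3
      refine A.2.2 (hIm _ _ ?_ (hIu _ _ h2 h3))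
      intro z hz
      by_cases h4 : z η = true
      · exact Or.inl ⟨hz, fun h5 => h5.2 h4⟩
      · exact Or.inr ⟨hz, h4⟩

theorem exists_codes {K : Type} (I : Set (K → Bool) → Prop)
    (hI0 : I ∅) (hIm : ∀ A B, A ⊆ B → I B → I A) (hIu : ∀ A B, I A → I B → I (A ∪ B))
    (hI1 : ¬ I Set.univ) : ∃ P le one : ZFSet.{0}, Codes P le one I := by
  let D : Type := {A : Set (K → Bool) //
    @MeasurableSet _ (MeasurableSpace.generateFrom {U | IsClopen U}) A ∧ ¬ I A}
  have htr : ∀ A B C : Set (K → Bool), I (A \ B) → I (B \ C) → I (A \ C) := by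
    intro A B C h1 h2
    refine hIm _ _ (fun z hz => ?_) (hIu _ _ h1 h2)
    by_cases h : z ∈ B
    · exact Or.inr ⟨h, hz.2⟩
    · exact Or.inl ⟨hz.1, h⟩
  let r : Setoid D := ⟨fun A B => I (A.1 \ B.1) ∧ I (B.1 \ A.1),
    ⟨fun A => by rw [Set.sdiff_self]; exact ⟨hI0, hI0⟩, fun h => h.symm,
      fun h h' => ⟨htr _ _ _ h.1 h'.1, htr _ _ _ h'.2 h.2⟩⟩⟩
  let c : D → ZFSet.{0} := fun A => (embeddingToCardinal (Quotient.mk r A)).ord.toZFSet
  refine ⟨ZFSet.range c, ZFSet.range fun z : {z : D × D // I (z.1.1 \ z.2.1)} =>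
    pair (c z.1.1) (c z.1.2), c ⟨Set.univ, MeasurableSet.univ, hI1⟩, c, fun p => mem_range,
    fun A B => ?_, fun x => ?_, _, rfl, rfl⟩
  · refine ⟨fun h => ?_, fun h => ?_⟩
    · exact Quotient.exact (embeddingToCardinal.injective
        (ord_injective (Ordinal.toZFSet_injective h)))
    · simp only [c]
      rw [Quotient.sound (s := r) h]
  · rw [mem_range]
    exact ⟨fun ⟨z, hz⟩ => ⟨z.1.1, z.1.2, hz.symm, z.2⟩,
      fun ⟨A, B, h1, h2⟩ => ⟨⟨(A, B), h2⟩, h1.symm⟩⟩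

theorem zfc {κ : Cardinal.{0}} (h0 : ℵ₁ ≤ κ) (h1 : κ.ord.cof = ℵ₀)
    (hC : Chang κ.out (Order.succ κ).out (ℵ₁ : Cardinal.{0}).out)
    (I : Set (κ.out → Bool) → Prop) (hI : I = IsMeagre ∨ I = Null κ.out) :
    (∃ P le one : ZFSet.{0}, Codes P le one I) ∧
      ∀ P le one : ZFSet.{0}, Codes P le one I → ¬ TransP P le one := by
  classical
  have h : I ∅ ∧ (∀ A B, A ⊆ B → I B → I A) ∧ (∀ A B, I A → I B → I (A ∪ B)) ∧
      ∀ ξ η, ξ ≠ η → ¬ I ({z | z ξ = true} \ {z | z η = true}) := by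
    rcases hI with rfl | rfl
    · refine ⟨IsMeagre.empty, fun A B h2 h3 => h3.mono h2, fun A B => IsMeagre.union,
        fun ξ η hne => ?_⟩
      have hcl : ∀ ξ : κ.out, IsClopen {z : κ.out → Bool | z ξ = true} := fun ξ =>
        (isClopen_discrete {true}).preimage (continuous_apply ξ)
      exact not_isMeagre_of_isOpen ((hcl ξ).diff (hcl η)).isOpen
        ⟨fun ζ => decide (ζ = ξ), by simp, by simpa using hne.symm⟩
    · refine ⟨MeasureTheory.measure_empty,
        fun A B h2 h3 => MeasureTheory.measure_mono_null h2 h3,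
        fun A B => MeasureTheory.measure_union_null, fun ξ η hne => ?_⟩
      have h2 : ({z : κ.out → Bool | z ξ = true} \ {z | z η = true}) =
          Set.pi (({ξ, η} : Finset κ.out) : Set κ.out) fun ζ => {decide (ζ = ξ)} := by
        ext z
        simp [hne.symm]
      unfold Null
      rw [h2, MeasureTheory.Measure.infinitePi_pi _ fun _ _ => MeasurableSet.of_discrete]
      refine Finset.prod_ne_zero_iff.2 fun ζ _ => ?_
      rw [PMF.toMeasure_apply_singleton _ _ MeasurableSet.of_discrete]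
      simp
  obtain ⟨h2, h3, h4, h5⟩ := h
  refine ⟨exists_codes I h2 h3 h4 fun h6 => ?_,
    fun P le one h => not_transP_codes h0 h1 hC I h2 h3 h4 h5 h⟩
  have : Nontrivial κ.out := by
    rw [← one_lt_iff_nontrivial, Cardinal.mk_out]
    exact (one_lt_aleph0.trans aleph0_lt_aleph_one).trans_le h0
  obtain ⟨ξ, η, hne⟩ := exists_pair_ne κ.out
  exact h5 ξ η hne (h3 _ _ (Set.subset_univ _) h6)

end Pool.Agent.H605Z.TP
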