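import Pool.Agent.H605Z.Pol.Final
import Pool.Agent.H605Z.TP.Zfc

set_option autoImplicit false

/-!
# Forcing CH and Chang's conjecture at the successor of a singular cardinal
-/

namespace Pool.Agent.H605Z.TP

open Cardinal Set Pool.Agent.Helper669.Forcing Pool.Agent.Helper669.K Pool.Agent.Helper980.G
  Pool.Agent.H68Z.Inj Pool.Agent.H605Z.Pol

section

variable {L M E : Type} [LinearOrder L] {μ : Cardinal.{0}}

theorem forces_ch' (hL : Stg L μ) (hM : #M = μ) (hLμ : #L = Order.succ μ) {X Y : Type} (hX : #X ≤ μ)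
    (hY : 2 ^ μ ≤ #Y) (p : Cond L M E) : p ∈ PowerLe (Cond L M E) X Y := by
  have h0 : ℵ₀ ≤ #L := by rw [hLμ]; exact hL.inf.trans (Order.le_succ μ)
  have hZ : #(X → M → Option (FP L M)) ≤ #Y := by
    rw [← power_def, ← power_def, ← power_mul]
    have h1 : #(Option (FP L M)) ≤ 2 ^ μ := by
      rw [mk_option]
      refine (add_le_of_le h0 (mk_FP h0 (by rw [hM, hLμ]; exact Order.le_succ μ))
        (one_le_aleph0.trans h0)).trans ?_
      rw [hLμ]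
      exact Order.succ_le_of_lt (cantor μ)
    refine (power_le_power_right h1).trans ?_
    rw [← power_mul]
    exact (power_le_power_left two_ne_zero
      (mul_le_of_le hL.inf le_rfl (mul_le_of_le hL.inf hM.le hX))).trans hY
  obtain ⟨j⟩ := hZ
  let Nm : (X → M → Option (FP L M)) → X → Set (Cond L M E) := fun z x =>
    {q | ∃ m r, z x m = some r ∧ Supp r q.s.α ∧ Le q.s.σ q.r r}
  have hNm : ∀ z x, Down (Nm z x) := by
    rintro z x q ⟨m, r, h1, h2, h3⟩ q' hq'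
    exact ⟨m, r, h1, h2.mono hq'.1.1, Le.trans q'.s.good (h2.mono hq'.1.1) hq'.2
      (h3.congr h2 fun ξ hξ => (hq'.1.2 ξ hξ).1)⟩
  refine mem_fex.2 fun q _ => ⟨q, le_rfl, fun y => Nm (Function.invFun j y), fun A => ?_⟩
  refine mem_fex.2 fun r _ => ?_
  obtain ⟨s', h1, W, h2, h3⟩ := key_lemma hL hM.le hX (fun x => meets (A x)) r.s
  have h4 : ∀ x, ∃ f : M → Option (FP L M), (fun w : Cond L M E => some w.r) '' W x = range f ∨
      (W x = ∅ ∧ f = fun _ => none) := by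
    intro x
    rcases (W x).eq_empty_or_nonempty with h | h
    · exact ⟨fun _ => none, Or.inr ⟨h, rfl⟩⟩
    · have : Nonempty (W x) := h.to_subtype
      obtain ⟨f, hf⟩ := cover (m := M) (Set.univ : Set (W x))
        (by rw [mk_univ, hM]; exact (h2 x).2.1)
      refine ⟨fun m => some (f m).1.r, Or.inl ?_⟩
      ext o
      constructor
      · rintro ⟨w, hw, rfl⟩
        obtain ⟨m, hm⟩ := hf (mem_univ ⟨w, hw⟩)
        exact ⟨m, by simp only [hm]⟩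
      · rintro ⟨m, rfl⟩
        exact ⟨(f m).1, (f m).2, rfl⟩
  choose z hz using h4
  refine ⟨⟨s', r.r, r.supp.mono h1.1⟩, ⟨h1, Le.refl _ _⟩, j z, fun x => ?_⟩
  show _ ∈ fand (fimp (meets (A x)) (meets (Nm (Function.invFun j (j z)) x)))
    (fimp (meets (Nm (Function.invFun j (j z)) x)) (meets (A x)))
  rw [Function.leftInverse_invFun j.injective z]
  refine ⟨mem_fimp.2 fun u hu h => ?_, mem_fimp.2 fun u hu h => ?_⟩
  · obtain ⟨w, hw, v, hv, hvw⟩ := h3 x u hu.1 h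
    refine ⟨v, hv, meets_of_mem ?_⟩
    rcases hz x with h5 | h5
    · have h6 : some w.r ∈ range (z x) := h5 ▸ ⟨w, hw, rfl⟩
      obtain ⟨m, hm⟩ := h6
      exact ⟨m, w.r, hm, w.supp.mono hvw.1.1, hvw.2⟩
    · rw [h5.1] at hw
      exact hw.elim
  · obtain ⟨v, hv, m, r', h5, _, h7⟩ := exists_of_meets (hNm z x) h
    rcases hz x with h8 | h8
    · have h9 : some r' ∈ (fun w : Cond L M E => some w.r) '' W x := h8 ▸ ⟨m, h5⟩
      obtain ⟨w, hw, h10⟩ := h9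
      have h11 : w.r = r' := Option.some.inj h10
      have h12 : v ≤ w := ⟨((h2 x).2.2 w hw).trans (hu.1.trans hv.1), by rw [h11]; exact h7⟩
      exact ⟨v, hv, down_meets _ _ ((h2 x).1 hw) _ h12⟩
    · rw [h8.2] at h5
      cases h5

end

section

variable {P : Type} [Preorder P]

theorem powerLe_trans {X Y Z : Type} {p : P} (h : p ∈ PowerLe P X Y) (h' : p ∈ SizeLe P Y Z) :
    p ∈ PowerLe P X Z := by
  refine mem_fex.2 fun q hq => ?_
  obtain ⟨r, hr, E, hE⟩ := mem_fex.1 h q hq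
  obtain ⟨s, hs, R, hR1, hR2⟩ := mem_fex.1 h' r (hr.trans hq)
  let E' : Z → X → Set P := fun z x => {t | ∃ y, t ∈ meets (R y z) ∧ t ∈ meets (E y x)}
  have hE' : ∀ z x, Down (E' z x) := fun z x t ⟨y, h1, h2⟩ u hu =>
    ⟨y, down_meets _ _ h1 _ hu, down_meets _ _ h2 _ hu⟩
  refine ⟨s, hs.trans hr, E', fun A => mem_fex.2 fun t ht => ?_⟩
  obtain ⟨u, hu, y, hy⟩ := mem_fex.1 (hE A) t (ht.trans hs)
  obtain ⟨v, hv, z, hz⟩ := IsFun.total (down_IsFun _ _ hR1 _ (hu.trans ht)) y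
  refine ⟨v, hv.trans hu, z, fun x => ⟨mem_fimp.2 fun a ha h1 => ?_, mem_fimp.2 fun a ha h1 => ?_⟩⟩
  · obtain ⟨b, hb, h2⟩ := mem_fimp.1 (hy x).1 a (ha.trans hv) h1
    exact ⟨b, hb, meets_of_mem ⟨y, down_meets _ _ hz _ (hb.trans ha), h2⟩⟩
  · obtain ⟨b, hb, y', h2, h3⟩ := exists_of_meets (hE' z x) h1
    have h4 : y' = y := IsInj.eq (down_IsInj _ _ hR2 _ (hb.trans (ha.trans (hv.trans
      (hu.trans ht))))) h2 (down_meets _ _ hz _ (hb.trans ha))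
    subst h4
    obtain ⟨c, hc, h5⟩ := mem_fimp.1 (hy x).2 b (hb.trans (ha.trans hv)) h3
    exact ⟨c, hc.trans hb, h5⟩

theorem enum_of_sizeLe {K : Type} [Nonempty K] (V : Set K) {p : P} (h : p ∈ SizeLe P V ℕ) :
    ∃ r ≤ p, ∃ t : ℕ → K → Set P, r ∈ IsFun t ∧
      ∀ y ∈ V, ∀ s ≤ r, ∃ u ≤ s, ∃ n, u ∈ meets (t n y) := by
  obtain ⟨r, hr, R, hR1, hR2⟩ := mem_fex.1 h p le_rfl
  let t : ℕ → K → Set P := fun n y => {q | (∃ h : y ∈ V, q ∈ meets (R ⟨y, h⟩ n)) ∨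
    (y = Classical.arbitrary K ∧ ∀ v, q ∈ fnot (meets (R v n)))}
  have ht : ∀ n y, Down (t n y) := by
    rintro n y q (⟨h1, h2⟩ | ⟨h1, h2⟩) s hs
    · exact Or.inl ⟨h1, down_meets _ _ h2 _ hs⟩
    · exact Or.inr ⟨h1, fun v => down_fnot _ _ (h2 v) _ hs⟩
  refine ⟨r, hr, t, ⟨fun n => mem_fex.2 fun s _ => ?_,
    fun n y y' => mem_fimp.2 fun s hs h1 => ⟨s, le_rfl, ?_⟩⟩, fun y hy s hs => ?_⟩
  · by_cases h1 : ∃ u ≤ s, ∃ v, u ∈ meets (R v n)
    · obtain ⟨u, hu, v, hv⟩ := h1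
      exact ⟨u, hu, v.1, meets_of_mem (Or.inl ⟨v.2, hv⟩)⟩
    · push Not at h1
      exact ⟨s, le_rfl, _, meets_of_mem (Or.inr ⟨rfl, fun v u hu => h1 u hu v⟩)⟩
  · obtain ⟨u, hu, h2, h3⟩ := two_meets (ht n y) (ht n y') h1.1 h1.2
    show y = y'
    rcases h2 with ⟨h4, h5⟩ | ⟨h4, h5⟩ <;> rcases h3 with ⟨h6, h7⟩ | ⟨h6, h7⟩
    · exact congrArg Subtype.val (IsInj.eq (down_IsInj _ _ hR2 _ (hu.trans hs)) h5 h7)
    · exact (h7 _ u le_rfl h5).elim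
    · exact (h5 _ u le_rfl h7).elim
    · rw [h4, h6]
  · obtain ⟨u, hu, n, hn⟩ := IsFun.total (down_IsFun _ _ hR1 _ hs) ⟨y, hy⟩
    exact ⟨u, hu, n, meets_of_mem (Or.inl ⟨hy, hn⟩)⟩

theorem changF_of {μ : Cardinal.{0}} (hμ : ℵ₀ ≤ μ) (hc : Cov P μ)
    (hcol : ∀ p : P, p ∈ SizeLe P μ.out ℕ) {K S W : Type} {lv : K → ℕ} {k : ℕ → Cardinal.{0}}
    (hK : Sing K lv k) (hSL : ∀ θ < #K, 2 ^ θ < #K) (hP : #P < #K) (hC : Ch K S μ)
    (hW : #W ≤ Order.succ μ) (p : P) : p ∈ ChangF P K S W := by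
  classical
  have hK0 : ℵ₀ ≤ #K := (hK.inf 0).trans (hK.lt 0).le
  have : Nonempty K := mk_ne_zero_iff.1 (aleph0_pos.trans_le hK0).ne'
  intro F
  refine mem_fimp.2 fun q _ hF => ?_
  let Z : Type := Σ m : ℕ, ({x // lv x ≤ m} → Set P)
  obtain ⟨j⟩ : #Z ≤ #K := by
    rw [mk_sigma]
    refine (sum_le_mk_mul_iSup _).trans (mul_le_of_le hK0 (by rwa [mk_nat]) (ciSup_le' fun m => ?_))
    rw [← power_def, mk_set, ← power_mul]
    exact (hSL _ (mul_lt_of_lt hK0 hP ((hK.le m).trans_lt (hK.lt m)))).le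
  let Φ : Finset S → ℕ → Z := fun a m =>
    ⟨(Nat.unpair m).2, fun x => meets (F (a, (Nat.unpair m).1) x.1)⟩
  obtain ⟨B, hB1, hB2⟩ := hC fun a m => j (Φ a m)
  let Zs : Set Z := {z | ∃ a : Finset S, ↑a ⊆ B ∧ ∃ m, Φ a m = z}
  have hZs : #Zs ≤ μ := by
    refine le_trans ?_ hB2
    rw [← mk_image_eq (s := Zs) j.injective]
    refine mk_le_mk_of_subset ?_
    rintro _ ⟨_, ⟨a, ha, m, rfl⟩, rfl⟩
    exact ⟨a, ha, m, rfl⟩
  let R : Zs → K → Set P := fun z y => meets {u | ∃ h : lv y ≤ z.1.1, u ∈ z.1.2 ⟨y, h⟩}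
  obtain ⟨q', hq', V, hV, hV'⟩ := hc.vals hμ q hZs R fun _ _ => down_meets _
  obtain ⟨r, hr, t, ht1, ht2⟩ := enum_of_sizeLe V
    (sizeLe_trans (sizeLe_of_le (X := μ.out) (by rwa [mk_out]) q') (hcol q'))
  refine ⟨r, hr.trans hq', mem_fex.2 fun r' hr' => ⟨r', le_rfl, fun s => fground (s ∈ B),
    atLeast_ground _ (hW.trans (Order.succ_le_of_lt hB1)) _,
    mem_fex.2 fun r'' hr'' => ⟨r'', le_rfl, t, down_IsFun _ _ ht1 _ (hr''.trans hr'),
      fun a y => mem_fimp.2 fun s hs h => ?_⟩⟩⟩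
  have hsr : s ≤ r := hs.trans (hr''.trans hr')
  have ha : ↑a.1 ⊆ B := fun x hx => by
    obtain ⟨_, _, _, h1, _⟩ := h.1 x hx s le_rfl
    exact h1
  let z : Zs := ⟨Φ a.1 (Nat.pair a.2 (lv y)), a.1, ha, _, rfl⟩
  have hz : ∀ y' u, u ∈ R z y' → ∃ v ≤ u, v ∈ meets (F a y') := by
    intro y' u hu
    obtain ⟨v, hv, w, ⟨h1, h2⟩, h3⟩ := hu u le_rfl
    have h4 : w ∈ meets (F (a.1, (Nat.unpair (Nat.pair a.2 (lv y))).1) y') := h2
    rw [Nat.unpair_pair] at h4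
    exact ⟨v, hv, down_meets _ _ h4 _ h3⟩
  have h1 : s ∈ R z y := by
    refine meets_of_mem ⟨by simp [z, Φ], ?_⟩
    show s ∈ meets (F (a.1, (Nat.unpair (Nat.pair a.2 (lv y))).1) y)
    rw [Nat.unpair_pair]
    exact h.2
  obtain ⟨u, hu, y', hy', h2⟩ := hV' z y s (hsr.trans hr) h1
  obtain ⟨v, hv, h3⟩ := hz y' u h2
  have h4 : y = y' := IsFun.unique
    (down_IsFun _ _ hF _ (hv.trans (hu.trans (hsr.trans (hr.trans hq')))))
    (down_meets _ _ h.2 _ (hv.trans hu)) h3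
  subst h4
  obtain ⟨w, hw, n, hn⟩ := ht2 y hy' s hsr
  exact ⟨w, hw, mem_fex_of_mem n (down_meets _) hn⟩

end

theorem forced {κ₀ : Cardinal.{0}} (h : IsSupercompact κ₀) :
    ∃ (P : Type) (_ : Preorder P) (w κ : Cardinal.{0}), Nonempty P ∧ κ.ord.cof = ℵ₀ ∧ w ≤ κ ∧
      IsNext P ℵ₀ w ∧ IsNext P κ (Order.succ κ) ∧ ∀ p : P, p ∈ StaysCard P κ ∧
        p ∈ PowerLe P ℕ w.out ∧ p ∈ ChangF P κ.out (Order.succ κ).out w.out := by
  let b : ℕ → Cardinal.{0} := fun n => (fun c => 2 ^ c)^[n] κ₀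
  have hb : ∀ n, b (n + 1) = 2 ^ b n := fun n => Function.iterate_succ_apply' _ _ _
  have hbm : StrictMono b := strictMono_nat_of_lt_succ fun n => by rw [hb]; exact cantor _
  have h1 := cof_sup hbm
  have h0 : κ₀ < ⨆ n, b n := lt_sup hbm 0
  have hSL0 : ∀ θ < ⨆ n, b n, 2 ^ θ < ⨆ n, b n := by
    intro θ hθ
    obtain ⟨n, hn⟩ := exists_lt_of_lt_ciSup hθ
    refine (power_le_power_left two_ne_zero hn.le).trans_lt ?_
    rw [← hb]
    exact lt_sup hbm _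
  generalize ⨆ n, b n = κ at h0 h1 hSL0
  have hκ : ℵ₀ < κ := h.1.trans h0
  obtain ⟨lv, k, hK⟩ := exists_sing hκ h1
  obtain ⟨e⟩ : Nonempty (κ.out ≃ κ.ord.ToType) := Cardinal.eq.1 (by simp)
  have hmK : #κ.out = κ := mk_out κ
  have hK' : Sing κ.out (fun x => lv (e x)) k := by
    have h2 : #κ.ord.ToType = #κ.out := by simp
    refine ⟨hK.inf, hK.mono, h2 ▸ hK.lt, h2 ▸ hK.cof, fun n => le_trans ?_ (hK.le n), h2 ▸ hK.lim⟩
    exact mk_le_of_injective (f := fun x => ⟨e x.1, x.2⟩)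
      fun x y hxy => Subtype.ext (e.injective (congrArg Subtype.val hxy))
  have hSL : ∀ θ < #κ.out, 2 ^ θ < #κ.out := by rwa [hmK]
  obtain ⟨U, hU⟩ := h.2 (Order.succ κ).out (by rw [mk_out]; exact h0.le.trans (Order.le_succ κ))
  obtain ⟨μ, hμ0, hμ, hC⟩ := exists_ch hU h.1 hK' hSL (by rwa [hmK])
    (by rw [hmK, mk_out]; exact Order.lt_succ κ)
  have hL := stg hμ0
  let L : Type := (Order.succ μ).ord.ToType
  have hmL : #L = Order.succ μ := by simp [L]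
  have hM : #μ.out = μ := mk_out μ
  have hE : #(2 ^ μ : Cardinal.{0}).out = 2 ^ μ := mk_out _
  have : Nonempty μ.out := mk_ne_zero_iff.1 (by rw [hM]; exact (aleph0_pos.trans_le hμ0).ne')
  have : Nonempty (2 ^ μ : Cardinal.{0}).out :=
    mk_ne_zero_iff.1 (by rw [hE]; exact (zero_le.trans_lt (cantor μ)).ne')
  have : Nonempty L := mk_ne_zero_iff.1 (by rw [hmL]; exact (Order.bot_lt_succ _).ne')
  have hLκ : #L ≤ κ₀ := by rw [hmL]; exact Order.succ_le_of_lt hμ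
  have hP : #(Cond L μ.out (2 ^ μ : Cardinal.{0}).out) < κ :=
    (mk_cond (L := L) (M := μ.out) (E := (2 ^ μ : Cardinal.{0}).out)
      (by rw [hmL]; exact hμ0.trans (Order.le_succ μ)) (by rw [hM, hmL]; exact Order.le_succ μ) hLκ
      (by rw [hE]; exact power_le_power_left two_ne_zero hμ.le)).trans_lt (hSL0 _ h0)
  have hne : Nonempty (Cond L μ.out (2 ^ μ : Cardinal.{0}).out) := by
    obtain ⟨a, ha⟩ := hL.wf.wf.has_min (Set.univ : Set L) univ_nonempty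
    exact ⟨⟨⟨a, fun _ _ _ _ => Set.univ, fun _ => Classical.arbitrary _,
      fun ξ hξ => absurd hξ (ha.2 ξ (mem_univ _))⟩, ⟨fun _ => ([], ∅), by simp⟩, fun _ _ => rfl⟩⟩
  refine ⟨Cond L μ.out (2 ^ μ : Cardinal.{0}).out, inferInstance, Order.succ μ, κ, hne, h1,
    (Order.succ_le_of_lt hμ).trans h0.le,
    ⟨hμ0.trans_lt (Order.lt_succ μ), fun p => ⟨?_, fun θ hθ => ?_⟩⟩,
    isNext_succ (stays_big (hκ.le.trans (Order.le_succ κ)) (hP.trans (Order.lt_succ κ))),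
    fun p => ⟨stays_big hκ.le hP p, ?_, ?_⟩⟩
  · refine stays_of_notSizeLe (fun θ hθ => (cov hL hM.le).notSizeLe hμ0 ?_ ?_) p
    · rw [mk_out]
      exact Order.lt_succ_iff.1 hθ
    · rw [mk_out]
      exact Order.lt_succ μ
  · exact sizeLe_trans (sizeLe_of_le (X := μ.out)
      (by rw [mk_out, hM]; exact Order.lt_succ_iff.1 hθ) p)
      (sizeLe_trans (collapse_M hL p) (sizeLe_of_le (by rw [mk_nat, mk_out]) p))
  · exact powerLe_trans (forces_ch' hL hM hmL (by rwa [mk_nat]) hE.ge p)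
      (sizeLe_trans (collapse_E hL p) (sizeLe_of_le (by rw [hmL, mk_out]) p))
  · exact changF_of hμ0 (cov hL hM.le) (collapse_M hL) hK' hSL (by rwa [hmK]) hC
      (mk_out _).le p

end Pool.Agent.H605Z.TP
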